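import Pool.Agent.H62.MC.Main

/-! Subshifts on `ℤ^d` closed under a Maltsev operation contain periodic points. -/

namespace Pool.Agent.H62.Spare.MaltsevPeriodic

/-- Let `A` be finite, `d ≥ 0` and `m : A³ → A` with `m x y y = x = m y y x`. Every nonempty
closed shift-invariant `X ⊆ A^(ℤ^d)` which is closed under the cellwise application of `m`
contains an `x` with `x (u + N v) = x u` for some `N > 0` and all `u, v`. In particular this
holds for every nonempty shift of finite type which is closed under `m`. -/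
theorem result (A : Type) [Finite A] [TopologicalSpace A] [DiscreteTopology A]
    (m : A → A → A → A) (hm : ∀ x y, m x y y = x ∧ m y y x = x) (d : ℕ)
    (X : Set ((Fin d → ℤ) → A)) (hne : X.Nonempty) (hcl : IsClosed X)
    (hinv : ∀ v : Fin d → ℤ, ∀ x ∈ X, (fun u => x (u + v)) ∈ X)
    (hmal : ∀ x ∈ X, ∀ y ∈ X, ∀ z ∈ X, (fun u => m (x u) (y u) (z u)) ∈ X) :
    ∃ N : ℕ, 0 < N ∧ ∃ x ∈ X, ∀ u v : Fin d → ℤ, x (u + N • v) = x u :=
  Pool.Agent.H62.MC.exists_periodic ⟨fun x y => (hm x y).1, fun x y => (hm x y).2⟩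
    X hne hcl hinv hmal

end Pool.Agent.H62.Spare.MaltsevPeriodic
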